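import Pool.Agent.Helper42_CG.Stmt

/-! CGP, module LNK: links which connect a connected set. -/

set_option autoImplicit false

namespace Pool.Agent.CGP.H51

open SimpleGraph Pool.Agent.LAG Pool.Agent.LLG Pool.Agent.CGP

theorem lnk_mono {W : Type} (Γ : SimpleGraph W) (C : Set W) {L L' : Set (Sym2 W)} (h : L ⊆ L') :
    Pool.Agent.CGP.lnk Γ C L ≤ Pool.Agent.CGP.lnk Γ C L' := by
  intro a b hab
  exact ⟨hab.1, hab.2.imp id (fun h1 => h h1)⟩

/-- LNK -/
theorem lnk : LnkStmt := by
  intro W _ _ Γ G1 U m hG1 hconn hQ
  classical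
  set H : Finset (Sym2 W) → SimpleGraph W :=
    fun L => Pool.Agent.CGP.lnk G1 (U : Set W) (L : Set (Sym2 W)) with hH
  set N : Finset (Sym2 W) → ℕ :=
    fun L => (U.image (fun v => (H L).connectedComponentMk v)).card with hN
  set P : Finset (Sym2 W) → Prop := fun L =>
    (∀ l ∈ L, l ∈ Γ.edgeSet ∧ (∀ w ∈ l, w ∈ U) ∧ l ∉ G1.edgeSet) ∧ L.card + N L ≤ N ∅ with hP
  have hP0 : P ∅ := by
    refine ⟨by simp, by simp⟩
  obtain ⟨L0, hL0, hmax⟩ := Finset.exists_max_image (Finset.univ.filter P) Finset.card
    ⟨∅, by simpa using hP0⟩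
  rw [Finset.mem_filter] at hL0
  obtain ⟨_, hL1, hL2⟩ := hL0
  have hmN : m * N ∅ ≤ U.card := by
    refine Finset.mul_card_image_le_card U m ?_
    intro K hK
    rw [Finset.mem_image] at hK
    obtain ⟨v, hv, rfl⟩ := hK
    refine hQ _ (Finset.filter_subset _ _) ⟨v, by simp [hv]⟩ ?_
    intro a ha b hb hab
    rw [Finset.mem_filter] at ha ⊢
    refine ⟨hb, ?_⟩
    rw [← ha.2, ConnectedComponent.eq]
    have : (H ∅).Adj a b := ⟨hab.ne, Or.inl ⟨ha.1, hb, hab⟩⟩
    exact this.symm.reachable
  refine ⟨L0, ?_, hL1, ?_⟩
  · have : L0.card ≤ N ∅ := le_trans (Nat.le_add_right _ _) hL2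
    exact le_trans (Nat.mul_le_mul_left m this) hmN
  · intro v hv w hw
    by_contra hvw
    obtain ⟨p⟩ := hconn.preconnected ⟨v, hv⟩ ⟨w, hw⟩
    obtain ⟨d, _, hd1, hd2⟩ := p.exists_boundary_dart {x | (H L0).Reachable v x.1}
      (Reachable.refl v) hvw
    have hadj : Γ.Adj d.fst.1 d.snd.1 := d.adj
    set a : W := d.fst.1 with ha
    set b : W := d.snd.1 with hb
    have haU : a ∈ U := d.fst.2
    have hbU : b ∈ U := d.snd.2
    have hab : ¬ (H L0).Reachable a b := fun h => hd2 (Reachable.trans hd1 h)
    have hG : s(a, b) ∉ G1.edgeSet := by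
      intro h
      have h1 : G1.Adj a b := h
      have : (H L0).Adj a b := ⟨h1.ne, Or.inl ⟨haU, hbU, h1⟩⟩
      exact hab this.reachable
    have hL : s(a, b) ∉ L0 := by
      intro h
      have : (H L0).Adj a b := ⟨hadj.ne, Or.inr h⟩
      exact hab this.reachable
    have hle : H L0 ≤ H (insert s(a, b) L0) :=
      lnk_mono G1 (U : Set W) (by
        intro x hx
        exact Finset.mem_coe.2 (Finset.mem_insert_of_mem (Finset.mem_coe.1 hx)))
    have hlt : N (insert s(a, b) L0) < N L0 := by
      set φ : (H L0).ConnectedComponent → (H (insert s(a, b) L0)).ConnectedComponent :=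
        ConnectedComponent.map (Hom.ofLE hle) with hφ
      have himg : U.image (fun v => (H (insert s(a, b) L0)).connectedComponentMk v) =
          (U.image (fun v => (H L0).connectedComponentMk v)).image φ := by
        rw [Finset.image_image]
        rfl
      change (U.image (fun v => (H (insert s(a, b) L0)).connectedComponentMk v)).card <
        (U.image (fun v => (H L0).connectedComponentMk v)).card
      rw [himg]
      refine lt_of_le_of_ne Finset.card_image_le ?_
      intro hcard
      have hinj := Finset.card_image_iff.1 hcard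
      have h1 : (H L0).connectedComponentMk a = (H L0).connectedComponentMk b := by
        apply hinj
        · exact Finset.mem_coe.2 (Finset.mem_image_of_mem _ haU)
        · exact Finset.mem_coe.2 (Finset.mem_image_of_mem _ hbU)
        · change (H (insert s(a, b) L0)).connectedComponentMk a =
            (H (insert s(a, b) L0)).connectedComponentMk b
          rw [ConnectedComponent.eq]
          have : (H (insert s(a, b) L0)).Adj a b :=
            ⟨hadj.ne, Or.inr (by simp)⟩
          exact this.reachable
      exact hab (ConnectedComponent.eq.1 h1)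
    have hP' : P (insert s(a, b) L0) := by
      refine ⟨?_, ?_⟩
      · intro l hl
        rw [Finset.mem_insert] at hl
        rcases hl with rfl | hl
        · refine ⟨hadj, ?_, hG⟩
          intro x hx
          rw [Sym2.mem_iff] at hx
          rcases hx with rfl | rfl
          · exact haU
          · exact hbU
        · exact hL1 l hl
      · rw [Finset.card_insert_of_notMem hL]
        omega
    have := hmax (insert s(a, b) L0) (by simpa using hP')
    rw [Finset.card_insert_of_notMem hL] at this
    omega

end Pool.Agent.CGP.H51
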