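import Pool.Agent.Helper42_CG.Stmt

/-! CGP, module STAR: the classes have about the expected size (Chernoff). -/

set_option autoImplicit false

namespace Pool.Agent.CGP.H51

open SimpleGraph Pool.Agent.LAG Pool.Agent.LLG Pool.Agent.CGP

/-- moment generating function of a sum of independent indicators on a finite product space -/
theorem mgf {I A V : Type} [Fintype I] [Fintype A] [DecidableEq I]
    (e : V → I) (he : Function.Injective e) (N : Finset V) (P : A → Prop) [DecidablePred P]
    (θ : ℝ) :
    ∑ ω : I → A, θ ^ (N.filter fun y => P (ω (e y))).card =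
      (Fintype.card A : ℝ) ^ (Fintype.card I - N.card) *
        (θ * ((Finset.univ.filter P).card : ℝ) +
          ((Finset.univ.filter fun a => ¬ P a).card : ℝ)) ^ N.card := by
  classical
  set S : Finset I := N.image e with hS
  set G : I → A → ℝ := fun i a => if i ∈ S then (if P a then θ else 1) else 1 with hG
  have hScard : S.card = N.card := Finset.card_image_of_injective N he
  have h1 : ∀ ω : I → A, θ ^ (N.filter fun y => P (ω (e y))).card = ∏ i, G i (ω i) := by
    intro ω
    have : ∏ i, G i (ω i) = ∏ i ∈ S, (if P (ω i) then θ else 1) := by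
      simp only [hG]
      rw [Finset.prod_ite_mem, Finset.univ_inter]
    rw [this, hS, Finset.prod_image (fun a _ b _ h => he h), Finset.prod_ite]
    simp
  have h2 : ∑ ω : I → A, ∏ i, G i (ω i) = ∏ i, ∑ a, G i a := by
    rw [Finset.prod_univ_sum, Fintype.piFinset_univ]
  have h3 : ∀ i, ∑ a, G i a = if i ∈ S then (θ * ((Finset.univ.filter P).card : ℝ) +
          ((Finset.univ.filter fun a => ¬ P a).card : ℝ)) else (Fintype.card A : ℝ) := by
    intro i
    by_cases hi : i ∈ S
    · simp only [hG, hi, if_true]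
      rw [Finset.sum_ite]
      simp [mul_comm]
    · simp only [hG, hi, if_false]
      simp
  rw [Finset.sum_congr rfl (fun ω _ => h1 ω), h2, Finset.prod_congr rfl (fun i _ => h3 i),
    Finset.prod_ite, Finset.prod_const, Finset.prod_const]
  have c1 : (Finset.univ.filter fun i => i ∈ S).card = N.card := by
    rw [Finset.filter_mem_eq_inter, Finset.univ_inter, hScard]
  have c2 : (Finset.univ.filter fun i => ¬ i ∈ S).card = Fintype.card I - N.card := by
    have : (Finset.univ.filter fun i => ¬ i ∈ S) = Sᶜ := by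
      ext i; simp
    rw [this, Finset.card_compl, hScard]
  rw [c1, c2, mul_comm]

theorem mgf_le {I A V : Type} [Fintype I] [Fintype A] [DecidableEq I]
    (e : V → I) (he : Function.Injective e) (N : Finset V) (P : A → Prop) [DecidablePred P]
    (θ p : ℝ) (hθ : 0 ≤ θ)
    (hP : ((Finset.univ.filter P).card : ℝ) = p * (Fintype.card A : ℝ)) :
    ∑ ω : I → A, θ ^ (N.filter fun y => P (ω (e y))).card ≤
      (Fintype.card (I → A) : ℝ) * Real.exp (N.card * (p * (θ - 1))) := by
  classical
  rw [mgf e he N P θ]
  have hcompl : ((Finset.univ.filter fun a => ¬ P a).card : ℝ) =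
      (Fintype.card A : ℝ) - p * (Fintype.card A : ℝ) := by
    have h := Finset.card_filter_add_card_filter_not (s := (Finset.univ : Finset A)) P
    rw [← hP, ← Finset.card_univ, ← h]
    push_cast
    ring
  have hNI : N.card ≤ Fintype.card I := by
    rw [← Finset.card_image_of_injective N he]
    exact Finset.card_le_univ _
  have hbase : θ * ((Finset.univ.filter P).card : ℝ) +
          ((Finset.univ.filter fun a => ¬ P a).card : ℝ) ≤
      (Fintype.card A : ℝ) * Real.exp (p * (θ - 1)) := by
    rw [hP, hcompl]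
    have h := Real.add_one_le_exp (p * (θ - 1))
    have hA : (0 : ℝ) ≤ (Fintype.card A : ℝ) := Nat.cast_nonneg _
    nlinarith [mul_le_mul_of_nonneg_left h hA]
  have hnn : 0 ≤ θ * ((Finset.univ.filter P).card : ℝ) +
          ((Finset.univ.filter fun a => ¬ P a).card : ℝ) := by positivity
  calc (Fintype.card A : ℝ) ^ (Fintype.card I - N.card) *
        (θ * ((Finset.univ.filter P).card : ℝ) +
          ((Finset.univ.filter fun a => ¬ P a).card : ℝ)) ^ N.card
      ≤ (Fintype.card A : ℝ) ^ (Fintype.card I - N.card) *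
        ((Fintype.card A : ℝ) * Real.exp (p * (θ - 1))) ^ N.card := by
        gcongr
    _ = (Fintype.card (I → A) : ℝ) * Real.exp (N.card * (p * (θ - 1))) := by
        rw [mul_pow, ← mul_assoc, ← pow_add, Nat.sub_add_cancel hNI, ← Real.exp_nat_mul]
        rw [Fintype.card_fun]
        push_cast
        rfl

/-- Chernoff, both tails, with `θ = 2` and `θ = 1/2` -/
theorem chern {I A V : Type} [Fintype I] [Fintype A] [DecidableEq I]
    (e : V → I) (he : Function.Injective e) (N : Finset V) (P : A → Prop) [DecidablePred P]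
    (d : ℕ) (hd : 1 ≤ d)
    (hP : (Finset.univ.filter P).card * d = Fintype.card A) :
    ({ω : I → A | ¬ (N.card ≤ 2 * d * (N.filter fun y => P (ω (e y))).card ∧
      d * (N.filter fun y => P (ω (e y))).card ≤ 2 * N.card)}.ncard : ℝ) ≤
      2 * Real.exp (-(N.card : ℝ) / (8 * d)) * (Fintype.card (I → A) : ℝ) := by
  classical
  have hd0 : (0 : ℝ) < d := by exact_mod_cast hd
  have hp : ((Finset.univ.filter P).card : ℝ) = (1 / d) * (Fintype.card A : ℝ) := by
    rw [← hP]; push_cast; field_simp
  set X : (I → A) → ℕ := fun ω => (N.filter fun y => P (ω (e y))).card with hX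
  set μ : ℝ := N.card / d with hμ
  have hμ0 : 0 ≤ μ := by positivity
  set Om : ℝ := (Fintype.card (I → A) : ℝ) with hOm
  have hOm0 : 0 ≤ Om := Nat.cast_nonneg _
  set B1 : Finset (I → A) := Finset.univ.filter fun ω => (X ω : ℝ) ≤ μ / 2 with hB1
  set B2 : Finset (I → A) := Finset.univ.filter fun ω => 2 * μ ≤ (X ω : ℝ) with hB2
  have hl1 := Real.log_two_gt_d9
  have hl2 := Real.log_two_lt_d9
  -- the two moment bounds
  have m2 := mgf_le e he N P 2 (1 / d) (by norm_num) hp
  have m1 := mgf_le e he N P (1 / 2) (1 / d) (by norm_num) hp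
  have e2 : (N.card : ℝ) * (1 / d * (2 - 1)) = μ := by rw [hμ]; ring
  have e1 : (N.card : ℝ) * (1 / d * (1 / 2 - 1)) = -μ / 2 := by rw [hμ]; ring
  rw [e2] at m2
  rw [e1] at m1
  have k2 : (B2.card : ℝ) * Real.exp (2 * μ * Real.log 2) ≤ Om * Real.exp μ := by
    refine le_trans ?_ m2
    calc (B2.card : ℝ) * Real.exp (2 * μ * Real.log 2)
        = ∑ ω ∈ B2, Real.exp (2 * μ * Real.log 2) := by rw [Finset.sum_const, nsmul_eq_mul]
      _ ≤ ∑ ω ∈ B2, (2 : ℝ) ^ X ω := by
          refine Finset.sum_le_sum fun ω hω => ?_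
          rw [hB2, Finset.mem_filter] at hω
          have : (2 : ℝ) ^ X ω = Real.exp (X ω * Real.log 2) := by
            rw [Real.exp_nat_mul, Real.exp_log (by norm_num)]
          rw [this]
          exact Real.exp_le_exp.2 (mul_le_mul_of_nonneg_right hω.2 (by linarith))
      _ ≤ ∑ ω, (2 : ℝ) ^ X ω :=
          Finset.sum_le_sum_of_subset_of_nonneg (Finset.subset_univ _)
            (fun _ _ _ => by positivity)
  have k1 : (B1.card : ℝ) * Real.exp (-(μ / 2 * Real.log 2)) ≤ Om * Real.exp (-μ / 2) := by
    refine le_trans ?_ m1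
    calc (B1.card : ℝ) * Real.exp (-(μ / 2 * Real.log 2))
        = ∑ ω ∈ B1, Real.exp (-(μ / 2 * Real.log 2)) := by
          rw [Finset.sum_const, nsmul_eq_mul]
      _ ≤ ∑ ω ∈ B1, (1 / 2 : ℝ) ^ X ω := by
          refine Finset.sum_le_sum fun ω hω => ?_
          rw [hB1, Finset.mem_filter] at hω
          have : (1 / 2 : ℝ) ^ X ω = Real.exp (X ω * (-Real.log 2)) := by
            rw [Real.exp_nat_mul, Real.exp_neg, Real.exp_log (by norm_num)]
            norm_num
          rw [this]
          refine Real.exp_le_exp.2 ?_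
          have h3 := mul_le_mul_of_nonneg_right hω.2 (by linarith : 0 ≤ Real.log 2)
          linarith
      _ ≤ ∑ ω, (1 / 2 : ℝ) ^ X ω :=
          Finset.sum_le_sum_of_subset_of_nonneg (Finset.subset_univ _)
            (fun _ _ _ => by positivity)
  have hexp : -(N.card : ℝ) / (8 * d) = -μ / 8 := by rw [hμ]; field_simp
  have b2 : (B2.card : ℝ) ≤ Om * Real.exp (-μ / 8) := by
    have h1 : (B2.card : ℝ) = (B2.card : ℝ) * Real.exp (2 * μ * Real.log 2) *
        Real.exp (-(2 * μ * Real.log 2)) := by
      rw [mul_assoc, ← Real.exp_add]; simp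
    rw [h1]
    calc (B2.card : ℝ) * Real.exp (2 * μ * Real.log 2) * Real.exp (-(2 * μ * Real.log 2))
        ≤ Om * Real.exp μ * Real.exp (-(2 * μ * Real.log 2)) :=
          mul_le_mul_of_nonneg_right k2 (Real.exp_nonneg _)
      _ = Om * Real.exp (μ - 2 * μ * Real.log 2) := by
          rw [mul_assoc, ← Real.exp_add]; ring_nf
      _ ≤ Om * Real.exp (-μ / 8) := by
          refine mul_le_mul_of_nonneg_left (Real.exp_le_exp.2 ?_) hOm0
          nlinarith
  have b1 : (B1.card : ℝ) ≤ Om * Real.exp (-μ / 8) := by
    have h1 : (B1.card : ℝ) = (B1.card : ℝ) * Real.exp (-(μ / 2 * Real.log 2)) *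
        Real.exp (μ / 2 * Real.log 2) := by
      rw [mul_assoc, ← Real.exp_add]; simp
    rw [h1]
    calc (B1.card : ℝ) * Real.exp (-(μ / 2 * Real.log 2)) * Real.exp (μ / 2 * Real.log 2)
        ≤ Om * Real.exp (-μ / 2) * Real.exp (μ / 2 * Real.log 2) :=
          mul_le_mul_of_nonneg_right k1 (Real.exp_nonneg _)
      _ = Om * Real.exp (-μ / 2 + μ / 2 * Real.log 2) := by
          rw [mul_assoc, ← Real.exp_add]
      _ ≤ Om * Real.exp (-μ / 8) := by
          refine mul_le_mul_of_nonneg_left (Real.exp_le_exp.2 ?_) hOm0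
          nlinarith
  have hsub : {ω : I → A | ¬ (N.card ≤ 2 * d * X ω ∧ d * X ω ≤ 2 * N.card)} ⊆
      ((B1 ∪ B2 : Finset (I → A)) : Set (I → A)) := by
    intro ω hω
    rw [Set.mem_setOf_eq, not_and_or, not_le, not_le] at hω
    rw [Finset.mem_coe, Finset.mem_union, hB1, hB2, Finset.mem_filter, Finset.mem_filter]
    rcases hω with h | h
    · left
      refine ⟨Finset.mem_univ _, ?_⟩
      have h' : (2 * d * X ω : ℝ) < N.card := by exact_mod_cast h
      rw [hμ, div_div, le_div_iff₀ (by positivity)]
      nlinarith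
    · right
      refine ⟨Finset.mem_univ _, ?_⟩
      have h' : (2 * N.card : ℝ) < d * X ω := by exact_mod_cast h
      rw [hμ, ← mul_div_assoc, div_le_iff₀ hd0]
      nlinarith
  have hcard : ({ω : I → A | ¬ (N.card ≤ 2 * d * X ω ∧ d * X ω ≤ 2 * N.card)}.ncard : ℝ) ≤
      (B1.card : ℝ) + B2.card := by
    have h1 := Set.ncard_le_ncard hsub (Finset.finite_toSet _)
    rw [Set.ncard_coe_finset] at h1
    have h2 := Finset.card_union_le B1 B2
    exact_mod_cast le_trans h1 h2
  rw [hexp]
  calc _ ≤ (B1.card : ℝ) + B2.card := hcard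
    _ ≤ Om * Real.exp (-μ / 8) + Om * Real.exp (-μ / 8) := add_le_add b1 b2
    _ = 2 * Real.exp (-μ / 8) * Om := by ring

/-- STAR -/
theorem star : StarStmt := by
  intro V _ _ _ O k c D0 bl hc hD hbl hO w f
  classical
  haveI : Fintype (Chf V) := Fintype.ofFinite _
  have hA : (Finset.univ.filter fun a : Alp V c D0 bl => a.1 = f).card * (c * D0) =
      Fintype.card (Alp V c D0 bl) := by
    have h1 : (Finset.univ.filter fun a : Alp V c D0 bl => a.1 = f) =
        ({f} : Finset (Fin c × Fin D0)) ×ˢ (Finset.univ : Finset (Chf V × Fin bl)) := by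
      ext a
      simp only [Finset.mem_filter, Finset.mem_univ, true_and, Finset.mem_product,
        Finset.mem_singleton, and_true]
    rw [h1, Finset.card_product, Finset.card_singleton, one_mul, Finset.card_univ,
      Fintype.card_prod (Fin c × Fin D0), Fintype.card_prod (Fin c)]
    simp [mul_comm]
  have hcd : 1 ≤ c * D0 := Nat.mul_pos hc hD
  rw [Nat.card_eq_fintype_card]
  rcases w with x | y
  · have hk : (Finset.univ.filter fun y => O x y).card = k := by
      have h0 := (hO x).1
      rw [← h0, ← Set.ncard_coe_finset]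
      congr 1
      ext w
      simp
    have h := chern (I := Crd V c D0) (A := Alp V c D0 bl) (V := V)
      (fun y => Sum.inl (x, y)) (by intro a b hab; simpa using hab)
      (Finset.univ.filter fun y => O x y) (fun a => a.1 = f) (c * D0) hcd hA
    rw [hk] at h
    have hcls : ∀ ω : Crd V c D0 → Alp V c D0 bl, cls O ω (Sum.inl x) f =
        ((Finset.univ.filter fun y => O x y).filter fun y => (ω (Sum.inl (x, y))).1 = f) := by
      intro ω
      ext y
      unfold cls colr
      rw [Finset.mem_filter, Finset.mem_filter, Finset.mem_filter]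
      simp
    simp only [hcls]
    push_cast at h ⊢
    exact h
  · have hk : (Finset.univ.filter fun x => O x y).card = k := by
      have h0 := (hO y).2
      rw [← h0, ← Set.ncard_coe_finset]
      congr 1
      ext w
      simp
    have h := chern (I := Crd V c D0) (A := Alp V c D0 bl) (V := V)
      (fun x => Sum.inl (x, y)) (by intro a b hab; simpa using hab)
      (Finset.univ.filter fun x => O x y) (fun a => a.1 = f) (c * D0) hcd hA
    rw [hk] at h
    have hcls : ∀ ω : Crd V c D0 → Alp V c D0 bl, cls O ω (Sum.inr y) f =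
        ((Finset.univ.filter fun x => O x y).filter fun x => (ω (Sum.inl (x, y))).1 = f) := by
      intro ω
      ext x
      unfold cls colr
      rw [Finset.mem_filter, Finset.mem_filter, Finset.mem_filter]
      simp
    simp only [hcls]
    push_cast at h ⊢
    exact h

end Pool.Agent.CGP.H51
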